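import Mathlib
import Pool.Agent.Helper6.LoewB

/-!
The sharp bound for the norm of the second-order term of mappings with parametric representation:
`M_n = 3√3/2` for every `n ≥ 2`.
-/

namespace Pool.Agent.Results.MP_2306a6_an.SharpSecondOrder

open Set Filter Topology Metric

/-- Univalent (biholomorphic onto its image) on the unit ball of `ℂⁿ`: holomorphic, injective, with
invertible derivative at every point of the ball. -/
def Univalent {n : ℕ} (f : EuclideanSpace ℂ (Fin n) → EuclideanSpace ℂ (Fin n)) : Prop :=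
  AnalyticOnNhd ℂ f (ball 0 1) ∧ InjOn f (ball 0 1) ∧
    ∀ z ∈ ball (0 : EuclideanSpace ℂ (Fin n)) 1, (fderiv ℂ f z).IsInvertible

/-- Normalized Loewner chains on the unit ball of `ℂⁿ`. -/
structure IsNormalizedLoewnerChain {n : ℕ}
    (F : ℝ → EuclideanSpace ℂ (Fin n) → EuclideanSpace ℂ (Fin n)) : Prop where
  univalent : ∀ t, 0 ≤ t → Univalent (F t)
  zero : ∀ t, 0 ≤ t → F t 0 = 0
  deriv : ∀ t, 0 ≤ t → fderiv ℂ (F t) 0
    = (Real.exp t : ℂ) • ContinuousLinearMap.id ℂ (EuclideanSpace ℂ (Fin n))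
  mono : ∀ s t, 0 ≤ s → s ≤ t → F s '' ball 0 1 ⊆ F t '' ball 0 1

/-- The family `{G t : t ≥ 0}` is normal on the unit ball: every sequence in it has a subsequence
converging uniformly on the compact subsets of the ball. -/
def NormalFamily {n : ℕ}
    (G : ℝ → EuclideanSpace ℂ (Fin n) → EuclideanSpace ℂ (Fin n)) : Prop :=
  ∀ t : ℕ → ℝ, (∀ k, 0 ≤ t k) → ∃ φ : ℕ → ℕ, StrictMono φ ∧
    ∃ g : EuclideanSpace ℂ (Fin n) → EuclideanSpace ℂ (Fin n),
      ∀ K : Set (EuclideanSpace ℂ (Fin n)), IsCompact K → K ⊆ ball 0 1 →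
        TendstoUniformlyOn (fun k => G (t (φ k))) g atTop K

/-- `S⁰(𝔹ⁿ)`: the mappings with parametric representation. -/
def S0 (n : ℕ) : Set (EuclideanSpace ℂ (Fin n) → EuclideanSpace ℂ (Fin n)) :=
  {f | ∃ F : ℝ → EuclideanSpace ℂ (Fin n) → EuclideanSpace ℂ (Fin n),
    IsNormalizedLoewnerChain F ∧ NormalFamily (fun t z => (Real.exp (-t) : ℂ) • F t z) ∧
      EqOn f (F 0) (ball 0 1)}

/-- `P₂(z) = ½ D²f(0)(z, z)`. -/
noncomputable def P2 {n : ℕ} (f : EuclideanSpace ℂ (Fin n) → EuclideanSpace ℂ (Fin n))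
    (z : EuclideanSpace ℂ (Fin n)) : EuclideanSpace ℂ (Fin n) :=
  (1 / 2 : ℂ) • iteratedFDeriv ℂ 2 f 0 ![z, z]

/-- `‖P₂‖ = sup {‖P₂(z)‖ : ‖z‖ = 1}`. -/
noncomputable def normP2 {n : ℕ} (f : EuclideanSpace ℂ (Fin n) → EuclideanSpace ℂ (Fin n)) : ℝ :=
  sSup {c : ℝ | ∃ z : EuclideanSpace ℂ (Fin n), ‖z‖ = 1 ∧ c = ‖P2 f z‖}

/-- `M_n = sup {‖P₂‖ : f ∈ S⁰(𝔹ⁿ)}`. -/
noncomputable def M (n : ℕ) : ℝ := sSup {c : ℝ | ∃ f ∈ S0 n, c = normP2 f}

open Loew

variable {n : ℕ}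

lemma P2_eq (f : EuclideanSpace ℂ (Fin n) → EuclideanSpace ℂ (Fin n))
    (z : EuclideanSpace ℂ (Fin n)) : P2 f z = (1 / 2 : ℂ) • D2 f z := by
  unfold P2 D2
  rw [iteratedFDeriv_two_apply]
  simp

lemma qc2 : Carath.qc 2 = 3 * √3 / 2 := by
  unfold Carath.qc
  rw [Real.sqrt_eq_iff_mul_self_eq (by positivity) (by positivity)]
  have h3 : √3 * √3 = 3 := Real.mul_self_sqrt (by norm_num)
  have : 3 * √3 / 2 * (3 * √3 / 2) = 9 / 4 * (√3 * √3) := by ring
  rw [this, h3]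
  norm_num

lemma step {F : ℝ → EuclideanSpace ℂ (Fin n) → EuclideanSpace ℂ (Fin n)}
    (hF : IsNormalizedLoewnerChain F) {s t : ℝ} (hs : 0 ≤ s) (hst : s < t)
    (z : EuclideanSpace ℂ (Fin n)) (hz : ‖z‖ = 1) :
    Real.exp (-s) * ‖D2 (F s) z‖ ≤ 2 * Carath.qc 2 * (Real.exp (t - s) - 1)
      + Real.exp (-(t - s)) * (Real.exp (-t) * ‖D2 (F t) z‖) := by
  have ht : 0 ≤ t := hs.trans hst.le
  have h0mem : (0 : EuclideanSpace ℂ (Fin n)) ∈ ball (0 : EuclideanSpace ℂ (Fin n)) 1 :=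
    mem_ball_self one_pos
  have hex : ∀ x, x ∈ ball (0 : EuclideanSpace ℂ (Fin n)) 1 →
      ∃ y, y ∈ ball (0 : EuclideanSpace ℂ (Fin n)) 1 ∧ F t y = F s x := by
    intro x hx
    obtain ⟨y, hy, hxy⟩ := hF.mono s t hs hst.le (mem_image_of_mem _ hx)
    exact ⟨y, hy, hxy⟩
  choose! v hv using hex
  obtain ⟨hFs, -, -⟩ := hF.univalent s hs
  obtain ⟨hFt, hinj, hinv⟩ := hF.univalent t ht
  have hva : AnalyticOnNhd ℂ v (ball 0 1) := transition_analytic hFs hFt hinj hinv v hv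
  have hv0 : v 0 = 0 := by
    apply hinj (hv 0 h0mem).1 h0mem
    rw [(hv 0 h0mem).2, hF.zero s hs, hF.zero t ht]
  have hev : F s =ᶠ[𝓝 0] F t ∘ v := by
    filter_upwards [eventually_ball h0mem] with x hx
    exact ((hv x hx).2).symm
  have hes : ((Real.exp t : ℝ) : ℂ) ≠ 0 := by exact_mod_cast (Real.exp_pos t).ne'
  have hvd : fderiv ℂ v 0 = ((Real.exp (-(t - s)) : ℝ) : ℂ) •
      ContinuousLinearMap.id ℂ (EuclideanSpace ℂ (Fin n)) := by
    have h1 := hev.fderiv_eq (𝕜 := ℂ)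
    rw [fderiv_comp 0 (by rw [hv0]; exact (hFt 0 h0mem).differentiableAt)
      (hva 0 h0mem).differentiableAt, hv0, hF.deriv s hs, hF.deriv t ht] at h1
    ext1 x
    have h2 := congrArg (fun L : EuclideanSpace ℂ (Fin n) →L[ℂ] EuclideanSpace ℂ (Fin n) => L x) h1
    simp only [smul_apply, ContinuousLinearMap.comp_apply,
      ContinuousLinearMap.id_apply] at h2 ⊢
    have h3 : (((Real.exp (-(t - s)) : ℝ) : ℂ)) = (((Real.exp t : ℝ)) : ℂ)⁻¹ * ((Real.exp s : ℝ) : ℂ) := by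
      rw [← Complex.ofReal_inv, ← Complex.ofReal_mul, ← Real.exp_neg, ← Real.exp_add]
      congr 2; ring
    rw [h3, mul_smul, h2, smul_smul, inv_mul_cancel₀ hes, one_smul]
  have hc1 : Real.exp (-(t - s)) < 1 := by
    rw [Real.exp_lt_one_iff]; linarith
  have hD2v := D2_transition_le hva (fun x hx => (hv x hx).1) hv0 _ hc1 hvd z hz
  have hcomp := D2_comp hev (hFt 0 h0mem) (hva 0 h0mem) hv0 _ hvd z
  rw [hF.deriv t ht] at hcomp
  have hn : ‖D2 (F s) z‖ ≤ Real.exp t * ‖D2 v z‖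
      + Real.exp (-(t - s)) ^ 2 * ‖D2 (F t) z‖ := by
    rw [hcomp]
    refine (norm_add_le _ _).trans (le_of_eq ?_)
    simp only [smul_apply, ContinuousLinearMap.id_apply]
    rw [norm_smul, norm_smul, norm_pow, Complex.norm_real, Complex.norm_real,
      Real.norm_of_nonneg (Real.exp_pos _).le, Real.norm_of_nonneg (Real.exp_pos _).le]
  have he1 : Real.exp (-s) * Real.exp t = Real.exp (t - s) := by
    rw [← Real.exp_add]; congr 1; ring
  have he2 : Real.exp (t - s) * Real.exp (-(t - s)) = 1 := by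
    rw [← Real.exp_add]; simp
  have he3 : Real.exp (-s) * Real.exp (-(t - s)) = Real.exp (-t) := by
    rw [← Real.exp_add]; congr 1; ring
  calc Real.exp (-s) * ‖D2 (F s) z‖
      ≤ Real.exp (-s) * (Real.exp t * ‖D2 v z‖ + Real.exp (-(t - s)) ^ 2 * ‖D2 (F t) z‖) :=
        mul_le_mul_of_nonneg_left hn (Real.exp_pos _).le
    _ = Real.exp (t - s) * ‖D2 v z‖
        + Real.exp (-(t - s)) * (Real.exp (-t) * ‖D2 (F t) z‖) := by
        rw [mul_add, ← mul_assoc, he1, sq, ← mul_assoc, ← mul_assoc, he3]; ring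
    _ ≤ Real.exp (t - s) * (2 * (Carath.qc 2 * (1 - Real.exp (-(t - s)))))
        + Real.exp (-(t - s)) * (Real.exp (-t) * ‖D2 (F t) z‖) := by
        gcongr
    _ = 2 * Carath.qc 2 * (Real.exp (t - s) - Real.exp (t - s) * Real.exp (-(t - s)))
        + Real.exp (-(t - s)) * (Real.exp (-t) * ‖D2 (F t) z‖) := by ring
    _ = _ := by rw [he2]

lemma bounded {F : ℝ → EuclideanSpace ℂ (Fin n) → EuclideanSpace ℂ (Fin n)}
    (hF : IsNormalizedLoewnerChain F)
    (hN : NormalFamily (fun t z => (Real.exp (-t) : ℂ) • F t z))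
    (z : EuclideanSpace ℂ (Fin n)) (hz : ‖z‖ = 1) :
    ∃ B : ℝ, ∀ t, 0 ≤ t → Real.exp (-t) * ‖D2 (F t) z‖ ≤ B := by
  by_contra hcon
  push Not at hcon
  choose t ht using fun k : ℕ => hcon (k : ℝ)
  obtain ⟨φ, hφ, g, hg⟩ := hN t fun k => (ht k).1
  set K : Set (EuclideanSpace ℂ (Fin n)) := closedBall 0 (1 / 2) with hK
  have hKc : IsCompact K := isCompact_closedBall _ _
  have hKb : K ⊆ ball 0 1 := closedBall_subset_ball (by norm_num)
  have hu := Metric.tendstoUniformlyOn_iff.mp (hg K hKc hKb) 1 one_pos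
  obtain ⟨k0, hk0⟩ := eventually_atTop.mp hu
  have hcont : ∀ k, ContinuousOn (fun w => (Real.exp (-(t (φ k))) : ℂ) • F (t (φ k)) w) K := by
    intro k w hw
    have := ((hF.univalent _ (ht (φ k)).1).1 w (hKb hw)).continuousAt
    exact (this.const_smul (Real.exp (-(t (φ k))) : ℂ)).continuousWithinAt
  obtain ⟨C, hC⟩ := hKc.exists_bound_of_continuousOn (hcont k0)
  have hbd : ∀ k, k0 ≤ k → ∀ w ∈ K, ‖(Real.exp (-(t (φ k))) : ℂ) • F (t (φ k)) w‖ ≤ C + 2 := by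
    intro k hk w hw
    have h1 := hk0 k hk w hw
    have h2 := hk0 k0 le_rfl w hw
    have h3 := hC w hw
    rw [dist_comm, dist_eq_norm] at h1
    rw [dist_eq_norm] at h2
    have h4 : (Real.exp (-(t (φ k))) : ℂ) • F (t (φ k)) w
        = ((Real.exp (-(t (φ k))) : ℂ) • F (t (φ k)) w - g w)
          + (g w - (Real.exp (-(t (φ k0))) : ℂ) • F (t (φ k0)) w)
          + (Real.exp (-(t (φ k0))) : ℂ) • F (t (φ k0)) w := by abel
    rw [h4]
    refine (norm_add_le _ _).trans ?_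
    have := norm_add_le ((Real.exp (-(t (φ k))) : ℂ) • F (t (φ k)) w - g w)
      (g w - (Real.exp (-(t (φ k0))) : ℂ) • F (t (φ k0)) w)
    linarith
  have hD : ∀ k, k0 ≤ k → Real.exp (-(t (φ k))) * ‖D2 (F (t (φ k))) z‖ ≤ 8 * (C + 2) := by
    intro k hk
    have hpos := Real.exp_pos (-(t (φ k)))
    have h1 := D2_le (hF.univalent _ (ht (φ k)).1).1 ((C + 2) / Real.exp (-(t (φ k)))) ?_ z hz
    · calc Real.exp (-(t (φ k))) * ‖D2 (F (t (φ k))) z‖
          ≤ Real.exp (-(t (φ k))) * (8 * ((C + 2) / Real.exp (-(t (φ k))))) :=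
            mul_le_mul_of_nonneg_left h1 hpos.le
        _ = _ := by field_simp
    · intro w hw
      have := hbd k hk w hw
      rw [norm_smul, Complex.norm_real, Real.norm_of_nonneg hpos.le] at this
      rw [le_div_iff₀ hpos]
      linarith
  obtain ⟨m, hm⟩ := exists_nat_gt (8 * (C + 2))
  have h1 := hD (max k0 m) (le_max_left _ _)
  have h2 := (ht (φ (max k0 m))).2
  have h3 : (m : ℝ) ≤ φ (max k0 m) := by
    exact_mod_cast (le_max_right k0 m).trans (hφ.id_le _)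
  linarith

lemma upper {f : EuclideanSpace ℂ (Fin n) → EuclideanSpace ℂ (Fin n)} (hf : f ∈ S0 n)
    (z : EuclideanSpace ℂ (Fin n)) (hz : ‖z‖ = 1) : ‖P2 f z‖ ≤ 3 * √3 / 2 := by
  obtain ⟨F, hF, hN, hfF⟩ := hf
  obtain ⟨B0, hB0⟩ := bounded hF hN z hz
  set S : Set ℝ := {c : ℝ | ∃ t, 0 ≤ t ∧ c = Real.exp (-t) * ‖D2 (F t) z‖} with hS
  have hSne : S.Nonempty := ⟨_, 0, le_rfl, rfl⟩
  have hSb : BddAbove S := by
    refine ⟨B0, ?_⟩
    rintro c ⟨t, ht, rfl⟩
    exact hB0 t ht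
  set B := sSup S with hB
  have hBq : ∀ τ, 0 < τ → B ≤ 2 * Carath.qc 2 * Real.exp τ := by
    intro τ hτ
    have h1 : B ≤ 2 * Carath.qc 2 * (Real.exp τ - 1) + Real.exp (-τ) * B := by
      apply csSup_le hSne
      rintro c ⟨s, hs, rfl⟩
      have h2 := step hF hs (t := s + τ) (by linarith) z hz
      have h3 : Real.exp (-(s + τ)) * ‖D2 (F (s + τ)) z‖ ≤ B :=
        le_csSup hSb ⟨s + τ, by linarith, rfl⟩
      rw [show s + τ - s = τ by ring] at h2
      refine h2.trans ?_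
      gcongr
    have h4 : Real.exp τ * Real.exp (-τ) = 1 := by rw [← Real.exp_add]; simp
    have h5 : Real.exp (-τ) < 1 := by rw [Real.exp_lt_one_iff]; linarith
    have h6 : B * (1 - Real.exp (-τ)) ≤ (2 * Carath.qc 2 * Real.exp τ) * (1 - Real.exp (-τ)) := by
      have e : (2 * Carath.qc 2 * Real.exp τ) * (1 - Real.exp (-τ))
          = 2 * Carath.qc 2 * (Real.exp τ - Real.exp τ * Real.exp (-τ)) := by ring
      rw [e, h4]
      linarith
    exact le_of_mul_le_mul_right h6 (by linarith)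
  have hB2 : B ≤ 2 * Carath.qc 2 := by
    have hc : Continuous fun τ : ℝ => 2 * Carath.qc 2 * Real.exp τ := by fun_prop
    have ht : Tendsto (fun τ : ℝ => 2 * Carath.qc 2 * Real.exp τ) (𝓝[>] 0)
        (𝓝 (2 * Carath.qc 2 * Real.exp 0)) := (hc.tendsto 0).mono_left nhdsWithin_le_nhds
    rw [Real.exp_zero, mul_one] at ht
    apply ge_of_tendsto ht
    filter_upwards [self_mem_nhdsWithin] with τ hτ
    exact hBq τ hτ
  have hev : f =ᶠ[𝓝 0] F 0 := by
    filter_upwards [eventually_ball (mem_ball_self one_pos)] with x hx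
    exact hfF hx
  have hD : D2 f z = D2 (F 0) z := by
    unfold D2
    rw [(hev.fderiv (𝕜 := ℂ)).fderiv_eq]
  have h7 : Real.exp (-0) * ‖D2 (F 0) z‖ ≤ B := le_csSup hSb ⟨0, le_rfl, rfl⟩
  rw [neg_zero, Real.exp_zero, one_mul] at h7
  rw [P2_eq, hD, norm_smul, ← qc2]
  norm_num
  linarith

/-- the shear `z ↦ z + c z_i² e_j` -/
noncomputable def sh (i j : Fin n) (c : ℂ) (z : EuclideanSpace ℂ (Fin n)) :
    EuclideanSpace ℂ (Fin n) :=
  z + (EuclideanSpace.proj (𝕜 := ℂ) i z : ℂ) ^ 2 • (c • EuclideanSpace.single j (1 : ℂ))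

lemma sh_i {i j : Fin n} (hij : i ≠ j) (c : ℂ) (z : EuclideanSpace ℂ (Fin n)) :
    (sh i j c z) i = z i := by
  unfold sh
  simp [hij]

lemma sh_analytic (i j : Fin n) (c : ℂ) (z : EuclideanSpace ℂ (Fin n)) :
    AnalyticAt ℂ (sh i j c) z := by
  unfold sh
  exact analyticAt_id.add ((((EuclideanSpace.proj (𝕜 := ℂ) i :
    EuclideanSpace ℂ (Fin n) →L[ℂ] ℂ).analyticAt z).pow 2).smul analyticAt_const)

lemma sh_inv {i j : Fin n} (hij : i ≠ j) (c : ℂ) (z : EuclideanSpace ℂ (Fin n)) :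
    sh i j (-c) (sh i j c z) = z := by
  have h := sh_i hij c z
  have : sh i j (-c) (sh i j c z) = sh i j c z
      + ((sh i j c z) i) ^ 2 • ((-c) • EuclideanSpace.single j (1 : ℂ)) := rfl
  rw [this, h]
  unfold sh
  simp

lemma sh_apply (i j : Fin n) (c : ℂ) (z : EuclideanSpace ℂ (Fin n)) :
    sh i j c z = z + (z i) ^ 2 • (c • EuclideanSpace.single j (1 : ℂ)) := rfl

lemma sh_zero (i j : Fin n) (c : ℂ) : sh i j c 0 = 0 := by
  rw [sh_apply]; simp

lemma sh_hasFDerivAt_zero (i j : Fin n) (c : ℂ) :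
    HasFDerivAt (sh i j c) (ContinuousLinearMap.id ℂ (EuclideanSpace ℂ (Fin n))) 0 := by
  have h1 : HasFDerivAt (fun z : EuclideanSpace ℂ (Fin n) =>
      ((EuclideanSpace.proj i : EuclideanSpace ℂ (Fin n) →L[ℂ] ℂ) z) ^ 2 •
      (c • EuclideanSpace.single j (1 : ℂ)))
      (0 : EuclideanSpace ℂ (Fin n) →L[ℂ] EuclideanSpace ℂ (Fin n)) 0 := by
    have h2 := (((EuclideanSpace.proj i : EuclideanSpace ℂ (Fin n) →L[ℂ] ℂ).hasFDerivAt
      (x := 0)).pow 2).smul_const (c • EuclideanSpace.single j (1 : ℂ))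
    refine h2.congr_fderiv ?_
    rw [map_zero]
    ext x
    simp
  have h3 := (hasFDerivAt_id (𝕜 := ℂ) (0 : EuclideanSpace ℂ (Fin n))).add h1
  rw [add_zero] at h3
  exact h3

lemma D2_sh (i j : Fin n) (c : ℂ) :
    D2 (sh i j c) (EuclideanSpace.single i (1 : ℂ))
      = (2 : ℂ) • (c • EuclideanSpace.single j (1 : ℂ)) := by
  set v : EuclideanSpace ℂ (Fin n) := c • EuclideanSpace.single j (1 : ℂ) with hv
  set e : EuclideanSpace ℂ (Fin n) := EuclideanSpace.single i (1 : ℂ) with he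
  rw [← iteratedDeriv_slice (sh_analytic i j c 0)]
  have h3 : (fun ζ : ℂ => sh i j c (ζ • e)) = fun t : ℂ => t • e + t ^ 2 • v := by
    funext t
    rw [sh_apply]
    congr 2
    simp [he]
  rw [h3, iteratedDeriv_fun_add (by fun_prop) (by fun_prop)]
  have h5 : iteratedDeriv 2 (fun t : ℂ => t • e) 0 = 0 := by
    have := iteratedDerivWithin_smul_const (𝕜 := ℂ) (n := 2) (s := univ) (x := 0)
      (f := fun t : ℂ => t) (mem_univ _) uniqueDiffOn_univ (by fun_prop) e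
    rw [iteratedDerivWithin_univ, iteratedDerivWithin_univ] at this
    rw [this, iteratedDeriv_fun_id_zero, if_neg (by omega), zero_smul]
  have h6 : iteratedDeriv 2 (fun t : ℂ => t ^ 2 • v) 0 = ((Nat.factorial 2 : ℕ) : ℂ) • v := by
    have := iteratedDerivWithin_smul_const (𝕜 := ℂ) (n := 2) (s := univ) (x := 0)
      (f := fun t : ℂ => t ^ 2) (mem_univ _) uniqueDiffOn_univ (by fun_prop) v
    rw [iteratedDerivWithin_univ, iteratedDerivWithin_univ] at this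
    rw [this, iteratedDeriv_fun_pow_zero, if_pos rfl]
  rw [h5, h6, zero_add]
  norm_num

/-- the chain `e^t (z + c z_i² e_j)` -/
noncomputable def ch (i j : Fin n) (c : ℂ) (t : ℝ) (z : EuclideanSpace ℂ (Fin n)) :
    EuclideanSpace ℂ (Fin n) := (Real.exp t : ℂ) • sh i j c z

/-- its inverse -/
noncomputable def chi (i j : Fin n) (c : ℂ) (t : ℝ) (z : EuclideanSpace ℂ (Fin n)) :
    EuclideanSpace ℂ (Fin n) := sh i j (-c) ((Real.exp (-t) : ℂ) • z)

lemma exp_mul (t : ℝ) : (Real.exp t : ℂ) * (Real.exp (-t) : ℂ) = 1 := by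
  rw [← Complex.ofReal_mul, ← Real.exp_add]; simp

lemma chi_ch {i j : Fin n} (hij : i ≠ j) (c : ℂ) (t : ℝ) (z : EuclideanSpace ℂ (Fin n)) :
    chi i j c t (ch i j c t z) = z := by
  unfold chi ch
  rw [smul_smul, mul_comm, exp_mul, one_smul, sh_inv hij]

lemma ch_chi {i j : Fin n} (hij : i ≠ j) (c : ℂ) (t : ℝ) (z : EuclideanSpace ℂ (Fin n)) :
    ch i j c t (chi i j c t z) = z := by
  unfold chi ch
  have := sh_inv hij (-c) ((Real.exp (-t) : ℂ) • z)
  rw [neg_neg] at this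
  rw [this, smul_smul, exp_mul, one_smul]

lemma ch_chain {i j : Fin n} (hij : i ≠ j) :
    IsNormalizedLoewnerChain (ch i j (((3 * √3 / 2 : ℝ)) : ℂ)) := by
  set c : ℂ := (((3 * √3 / 2 : ℝ)) : ℂ) with hc
  have han : ∀ t z, AnalyticAt ℂ (ch i j c t) z := by
    intro t z
    have h : AnalyticAt ℂ (fun z => (Real.exp t : ℂ) • sh i j c z) z :=
      analyticAt_const.fun_smul (sh_analytic i j c z)
    exact h
  have hani : ∀ t z, AnalyticAt ℂ (chi i j c t) z := by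
    intro t z
    have h : AnalyticAt ℂ (fun z : EuclideanSpace ℂ (Fin n) => (Real.exp (-t) : ℂ) • z) z :=
      analyticAt_const.fun_smul analyticAt_id
    exact (sh_analytic i j (-c) _).fun_comp h
  refine ⟨?_, ?_, ?_, ?_⟩
  · intro t _
    refine ⟨fun z _ => han t z, ?_, ?_⟩
    · intro x _ y _ hxy
      have := congrArg (chi i j c t) hxy
      rwa [chi_ch hij, chi_ch hij] at this
    · intro z _
      exact invertible_of_inverse (fun z => (han t z).differentiableAt)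
        (fun z => (hani t z).differentiableAt) (ch_chi hij c t) (chi_ch hij c t) z
  · intro t _
    unfold ch
    rw [sh_zero, smul_zero]
  · intro t _
    exact ((sh_hasFDerivAt_zero i j c).const_smul (Real.exp t : ℂ)).fderiv
  · rintro s t hs hst _ ⟨z, hz, rfl⟩
    set l := Real.exp (s - t) with hl
    have hl0 : 0 < l := Real.exp_pos _
    have hl1 : l ≤ 1 := by rw [hl, Real.exp_le_one_iff]; linarith
    refine ⟨chi i j c t (ch i j c s z), ?_, ch_chi hij c t _⟩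
    have hz1 : ‖z‖ < 1 := by simpa using hz
    set w := chi i j c t (ch i j c s z) with hw
    have hlc : (Real.exp (-t) : ℂ) * (Real.exp s : ℂ) = (l : ℂ) := by
      rw [← Complex.ofReal_mul, ← Real.exp_add, hl]; congr 2; ring
    have hw1 : w = (l : ℂ) • sh i j c z
        + ((l : ℂ) * z i) ^ 2 • ((-c) • EuclideanSpace.single j (1 : ℂ)) := by
      rw [hw]
      unfold chi ch
      rw [smul_smul, hlc, sh_apply i j (-c)]
      congr 2
      rw [PiLp.smul_apply, sh_i hij, smul_eq_mul]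
    have hwk : ∀ k, k ≠ j → w k = (l : ℂ) * z k := by
      intro k hk
      rw [hw1, sh_apply]
      simp [hk]
    have hwj : w j = (l : ℂ) * z j + (l : ℂ) * (1 - l) * c * (z i) ^ 2 := by
      rw [hw1, sh_apply]
      simp
      ring
    rw [mem_ball_zero_iff]
    have hn : ‖w‖ ^ 2 = l ^ 2 * (‖z‖ ^ 2 - ‖z j‖ ^ 2) + ‖w j‖ ^ 2 := by
      rw [EuclideanSpace.norm_sq_eq, EuclideanSpace.norm_sq_eq,
        ← Finset.add_sum_erase _ _ (Finset.mem_univ j),
        ← Finset.add_sum_erase (Finset.univ) (fun k => ‖z k‖ ^ 2) (Finset.mem_univ j)]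
      have : ∑ k ∈ Finset.univ.erase j, ‖w k‖ ^ 2
          = l ^ 2 * ∑ k ∈ Finset.univ.erase j, ‖z k‖ ^ 2 := by
        rw [Finset.mul_sum]
        apply Finset.sum_congr rfl
        intro k hk
        rw [hwk k (Finset.ne_of_mem_erase hk), norm_mul, mul_pow, Complex.norm_real,
          Real.norm_of_nonneg hl0.le]
      rw [this]
      ring
    have hij2 : ‖z i‖ ^ 2 ≤ ‖z‖ ^ 2 - ‖z j‖ ^ 2 := by
      rw [EuclideanSpace.norm_sq_eq]
      have h1 : ∑ k ∈ ({i, j} : Finset (Fin n)), ‖z k‖ ^ 2 ≤ ∑ k, ‖z k‖ ^ 2 :=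
        Finset.sum_le_sum_of_subset_of_nonneg (Finset.subset_univ _) fun _ _ _ => by positivity
      rw [Finset.sum_pair hij] at h1
      linarith
    have hX0 : 0 ≤ ‖z‖ ^ 2 - ‖z j‖ ^ 2 := le_trans (by positivity) hij2
    have hwn : ‖w j‖ ≤ l * ‖z j‖ + l * (1 - l) * (3 * √3 / 2) * (‖z‖ ^ 2 - ‖z j‖ ^ 2) := by
      rw [hwj]
      refine (norm_add_le _ _).trans ?_
      have e1 : ‖(l : ℂ) * z j‖ = l * ‖z j‖ := by
        rw [norm_mul, Complex.norm_real, Real.norm_of_nonneg hl0.le]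
      have e2 : ‖(l : ℂ) * (1 - l) * c * (z i) ^ 2‖ = l * (1 - l) * (3 * √3 / 2) * ‖z i‖ ^ 2 := by
        have e3 : (l : ℂ) * (1 - l) * c * (z i) ^ 2
            = (((l * (1 - l) * (3 * √3 / 2) : ℝ)) : ℂ) * (z i) ^ 2 := by
          rw [hc]; push_cast; ring
        have e4 : 0 ≤ l * (1 - l) * (3 * √3 / 2) := by
          have : 0 ≤ 1 - l := by linarith
          positivity
        rw [e3, norm_mul, norm_pow, Complex.norm_real, Real.norm_of_nonneg e4]
      rw [e1, e2]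
      have : 0 ≤ l * (1 - l) * (3 * √3 / 2) := by
        have : 0 ≤ 1 - l := by linarith
        positivity
      gcongr
    have hs1 := shear_lt hX0 (norm_nonneg (z j)) (l := l) (by nlinarith [norm_nonneg z]) hl0 hl1
    have hfin : ‖w‖ ^ 2 < 1 := by
      rw [hn]
      have := pow_le_pow_left₀ (norm_nonneg (w j)) hwn 2
      linarith
    nlinarith [norm_nonneg w]

lemma sh_mem {i j : Fin n} (hij : i ≠ j) : sh i j (((3 * √3 / 2 : ℝ)) : ℂ) ∈ S0 n := by
  refine ⟨ch i j _, ch_chain hij, ?_, ?_⟩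
  · intro t _
    refine ⟨id, strictMono_id, sh i j (((3 * √3 / 2 : ℝ)) : ℂ), ?_⟩
    intro K _ _
    rw [Metric.tendstoUniformlyOn_iff]
    intro ε hε
    filter_upwards with k z _
    have : (Real.exp (-(t (id k))) : ℂ) • ch i j (((3 * √3 / 2 : ℝ)) : ℂ) (t (id k)) z
        = sh i j (((3 * √3 / 2 : ℝ)) : ℂ) z := by
      unfold ch
      rw [smul_smul, mul_comm, exp_mul, one_smul]
    rw [this, dist_self]
    exact hε
  · intro z _
    unfold ch
    simp

theorem result (n : ℕ) (hn : 2 ≤ n) :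
    (∀ f ∈ S0 n, ∀ z : EuclideanSpace ℂ (Fin n), ‖z‖ = 1 → ‖P2 f z‖ ≤ 3 * √3 / 2) ∧
    (∃ f ∈ S0 n, ∃ z : EuclideanSpace ℂ (Fin n), ‖z‖ = 1 ∧ ‖P2 f z‖ = 3 * √3 / 2) ∧
    M n = 3 * √3 / 2 := by
  have hup : ∀ f ∈ S0 n, ∀ z : EuclideanSpace ℂ (Fin n), ‖z‖ = 1 → ‖P2 f z‖ ≤ 3 * √3 / 2 :=
    fun f hf z hz => upper hf z hz
  set i : Fin n := ⟨0, by omega⟩ with hi
  set j : Fin n := ⟨1, by omega⟩ with hj
  have hij : i ≠ j := by
    intro h
    have := congrArg Fin.val h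
    simp [hi, hj] at this
  have hq0 : (0 : ℝ) ≤ 3 * √3 / 2 := by positivity
  have hval : ‖P2 (sh i j (((3 * √3 / 2 : ℝ)) : ℂ)) (EuclideanSpace.single i (1 : ℂ))‖
      = 3 * √3 / 2 := by
    rw [P2_eq, D2_sh, smul_smul, smul_smul, norm_smul]
    have e : (1 / 2 * 2 * (((3 * √3 / 2 : ℝ)) : ℂ) : ℂ) = (((3 * √3 / 2 : ℝ)) : ℂ) := by ring
    rw [e, Complex.norm_real, Real.norm_of_nonneg hq0]
    simp
  have hsi : ‖(EuclideanSpace.single i (1 : ℂ) : EuclideanSpace ℂ (Fin n))‖ = 1 := by simp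
  refine ⟨hup, ⟨_, sh_mem hij, EuclideanSpace.single i 1, hsi, hval⟩, ?_⟩
  have hnp : ∀ f ∈ S0 n, normP2 f ≤ 3 * √3 / 2 := by
    intro f hf
    unfold normP2
    apply Real.sSup_le
    · rintro c ⟨z, hz, rfl⟩
      exact hup f hf z hz
    · exact hq0
  unfold M
  apply le_antisymm
  · apply Real.sSup_le
    · rintro c ⟨f, hf, rfl⟩
      exact hnp f hf
    · exact hq0
  · have h1 : 3 * √3 / 2 ≤ normP2 (sh i j (((3 * √3 / 2 : ℝ)) : ℂ)) := by
      unfold normP2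
      apply le_csSup
      · refine ⟨3 * √3 / 2, ?_⟩
        rintro c ⟨z, hz, rfl⟩
        exact hup _ (sh_mem hij) z hz
      · exact ⟨_, hsi, hval.symm⟩
    refine h1.trans ?_
    apply le_csSup
    · refine ⟨3 * √3 / 2, ?_⟩
      rintro c ⟨f, hf, rfl⟩
      exact hnp f hf
    · exact ⟨_, sh_mem hij, rfl⟩

end Pool.Agent.Results.MP_2306a6_an.SharpSecondOrder
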